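import Pool.Agent.Helper25_CN2.Stmts
import Pool.Agent.Helper27_CON.BTem

/-!
Squad CN2: module B_TEM2 (all Eichler transformations at the cusp are in W(L), n at least 10)
-/

noncomputable section

namespace Pool.Agent.CN2.H70

open Pool.Agent.H25Cong Pool.Agent.CON Pool.Agent.CN2 Pool.Agent.CON.H27

section abs

variable {A : Type} [AddCommGroup A] {b : A → A → ℤ} {q : A → ℤ}

/-- a hyperbolic pair and two vectors orthogonal to it -/
lemma pairs2 (hHYP : B_HYP) (hCMP : B_CMP) (hq : QF b q) {p : ℕ} (hp : p.Prime)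
    (h3 : IndA b ⊤ p 3) : ∃ u w y y', HP b q p u w ∧ (p : ℤ) ∣ b u y ∧ (p : ℤ) ∣ b u y' ∧
      (p : ℤ) ∣ b w y ∧ (p : ℤ) ∣ b w y' ∧ ¬ (p : ℤ) ∣ b y y' := by
  obtain ⟨u, hu, w, hw, hP⟩ := hHYP A b q ⊤ p hq hp h3
  obtain ⟨c, hc, hz⟩ := hCMP A b q ⊤ (Yc hq p u w) p 1 u w hq hp hu hw hP
    (fun y => ⟨fun h => ⟨trivial, h.1, h.2⟩, fun h => ⟨h.2.1, h.2.2⟩⟩) h3
  by_cases h : ∀ y ∈ Yc hq p u w, (p : ℤ) ∣ b (c 0) y
  · exfalso
    have h1 := hz (fun _ => 1) (fun y hy => by simpa using h y hy) 0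
    have h2 : (p : ℤ) = 1 ∨ (p : ℤ) = -1 := Int.isUnit_iff.mp (isUnit_of_dvd_one h1)
    have h4 := hp.two_le
    omega
  · push Not at h
    obtain ⟨y', hy', hcy⟩ := h
    have hc0 := hc 0
    exact ⟨u, w, c 0, y', hP, by rw [hq.symm]; exact hc0.1, by rw [hq.symm]; exact hy'.1,
      by rw [hq.symm]; exact hc0.2, by rw [hq.symm]; exact hy'.2, hcy⟩

/-- the local step -/
lemma local_step2 (hHYP : B_HYP) (hCMP : B_CMP) (hHEN : B_HEN) (hSPN : B_SPN2) (hq : QF b q)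
    {N : ℕ} (hN : 0 < N) (H : AddSubgroup A) (h3 : ∀ p : ℕ, p.Prime → IndA b ⊤ p 3)
    (hT : ∀ μ : A, (∃ k : ℤ, q μ = 1 + N ^ 2 * k) → ∀ m : A, b m μ • μ ∈ H) {p : ℕ}
    (hp : p.Prime) (hpN : p ∣ N) : H ⊔ pA A p = ⊤ := by
  classical
  have hpairs := fun l (hl : Nat.Prime l) => pairs2 hHYP hCMP hq hl (h3 l hl)
  obtain ⟨u, w, y, y', hP, g1, g2, g3, g4, g5⟩ := hpairs p hp
  refine hSPN A b q p u w y y' (H ⊔ pA A p) hq hp hP g1 g2 g3 g4 g5 ?_ ?_
  · intro x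
    exact AddSubgroup.mem_sup_right ⟨x, rfl⟩
  · rintro v hv ⟨y0, hy0⟩
    -- smooth solutions for all primes
    have hsol : ∀ l : ℕ, ∃ z z' : A, l.Prime → ((l : ℤ) ∣ q z - 1 ∧ ¬ (l : ℤ) ∣ b z z') ∧
        (l = p → z = v) := by
      intro l
      by_cases hl : l.Prime
      · by_cases hlp : l = p
        · subst hlp
          exact ⟨v, y0, fun _ => ⟨⟨hv, hy0⟩, fun _ => rfl⟩⟩
        · obtain ⟨a, c, -, -, hac, -⟩ := hpairs l hl
          exact ⟨a + c, c, fun _ => ⟨smooth hq hl hac, fun h => absurd h hlp⟩⟩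
      · exact ⟨0, 0, fun h => absurd h hl⟩
    choose z z' hz using hsol
    obtain ⟨μ, -, hμ1, hμ2⟩ := hHEN A b q ⊤ 0 1 (N ^ 2) z z' hq (by positivity)
      (fun l hl _ => ⟨trivial, trivial, by rw [zero_add]; exact (hz l hl).1.1,
        by rw [zero_add]; exact (hz l hl).1.2⟩)
    rw [zero_add] at hμ1
    obtain ⟨k, hk⟩ := hμ1
    obtain ⟨s, -, hs⟩ := hμ2 p hp (dvd_trans hpN (dvd_pow_self N two_ne_zero))
    rw [(hz p hp).2 rfl] at hs
    have hTμ := hT μ ⟨k, by push_cast at hk; linarith⟩ y0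
    have hμv : μ = v + (p : ℤ) • s := by rw [← hs]; abel
    have hd : ¬ (p : ℤ) ∣ b y0 μ := by
      rw [hμv, hq.symm, hq.add_left, Pool.Agent.CON.H70.smul_left hq]
      intro h
      exact hy0 ((dvd_add_left (Dvd.intro _ rfl)).mp h)
    have hcop : IsCoprime (p : ℤ) (b y0 μ) :=
      ((Nat.prime_iff_prime_int.mp hp).coprime_iff_not_dvd).mpr hd
    obtain ⟨r, t, hrt⟩ := hcop
    have hμmem : μ ∈ H ⊔ pA A p := by
      have e1 : μ = (p : ℤ) • (r • μ) + t • (b y0 μ • μ) := by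
        rw [← mul_smul, ← mul_smul, ← add_smul]
        have : (p : ℤ) * r + t * b y0 μ = 1 := by linarith
        rw [this, one_smul]
      rw [e1]
      exact AddSubgroup.add_mem _ (AddSubgroup.mem_sup_right ⟨_, rfl⟩)
        (AddSubgroup.zsmul_mem _ (AddSubgroup.mem_sup_left hTμ) _)
    have e2 : v = μ - (p : ℤ) • s := by rw [hμv]; abel
    rw [e2]
    exact AddSubgroup.sub_mem _ hμmem (AddSubgroup.mem_sup_right ⟨_, rfl⟩)

end abs

/-- Module B_TEM2. -/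
theorem b_tem2 (hHYP : B_HYP) (hCMP : B_CMP) (hHEN : B_HEN) (hSPN : B_SPN2) (hTRN : B_TRN)
    (hIND : D_IND) : B_TEM2 := by
  intro n L N e f m hL hInd hN hc heL hfL he hf hef hmL he' hm
  have hq := qf hL e f
  have h5 : ∀ p : ℕ, p.Prime → IndA (bG (Mef L e f)) ⊤ p 3 := fun p hp =>
    hIND n L e f p 3 hL heL hfL he hf hef hp (hInd p hp)
  have hT : ∀ μ : Mef L e f, (∃ k : ℤ, qG (Mef L e f) μ = 1 + N ^ 2 * k) → ∀ m : Mef L e f,
      bG (Mef L e f) m μ • μ ∈ HH L e f he := by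
    rintro μ ⟨k, hk⟩ m'
    have h1 : B (μ : V n) (μ : V n) = 2 + 2 * N ^ 2 * k := by
      have h2 := qG_cast hL μ
      rw [hk] at h2
      push_cast at h2
      linarith
    obtain ⟨h2, h3, h4⟩ := hTRN n L N e f m' μ hL hN hc heL hfL he hf hef m'.2.1 m'.2.2.1
      m'.2.2.2 μ.2.1 μ.2.2.1 μ.2.2.2 ⟨k, h1⟩
    rw [mem_HH]
    have h5 : ((bG (Mef L e f) m' μ • μ : Mef L e f) : V n) = B (m' : V n) (μ : V n) • (μ : V n) := by
      rw [AddSubgroup.coe_zsmul, ← bG_cast hL, Int.cast_smul_eq_zsmul]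
    have h6 : E e ((bG (Mef L e f) m' μ • μ : Mef L e f) : V n) he
        (bG (Mef L e f) m' μ • μ : Mef L e f).2.2.1 =
        E e (B (m' : V n) (μ : V n) • (μ : V n)) h2 h3 := E_congr rfl h5 _ _ _ _
    rw [h6]
    exact h4
  have hNH : ∀ x : Mef L e f, (N : ℤ) • x ∈ HH L e f he := by
    intro x
    rw [mem_HH]
    have h3 : B ((N : ℝ) • (x : V n)) e = 0 := by rw [B_smul_left, x.2.2.1, mul_zero]
    have h5 : (((N : ℤ) • x : Mef L e f) : V n) = (N : ℝ) • (x : V n) := by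
      rw [AddSubgroup.coe_zsmul, ← Int.cast_smul_eq_zsmul ℝ]
      norm_num
    have h6 : E e (((N : ℤ) • x : Mef L e f) : V n) he ((N : ℤ) • x : Mef L e f).2.2.1 =
        E e ((N : ℝ) • (x : V n)) he h3 := E_congr rfl h5 _ _ _ _
    rw [h6]
    exact N_mem hL hc heL x.2.1 he hf hef x.2.2.1 x.2.2.2 h3
  have htop : HH L e f he = ⊤ := all_of_primes hN _ hNH fun p hp hpN =>
    local_step2 hHYP hCMP hHEN hSPN hq hN _ h5 hT hp hpN
  -- general m
  obtain ⟨s, hs⟩ := hL.int m hmL f hfL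
  have hfe : B f e = -1 := by rw [B_comm]; exact hef
  have h1 : B (m + (s : ℝ) • e) e = 0 := by rw [B_add_left, B_smul_left, hm, he]; ring
  have h2 : B (m + (s : ℝ) • e) f = 0 := by rw [B_add_left, B_smul_left, hs, hef]; ring
  have h3 : m + (s : ℝ) • e ∈ L := L.add_mem hmL (H21.smulZ s heL)
  have h4 : (⟨m + (s : ℝ) • e, h3, h1, h2⟩ : Mef L e f) ∈ HH L e f he := by rw [htop]; trivial
  rw [mem_HH] at h4
  have h7 : E e (m + (s : ℝ) • e) he h1 = E e m he hm := E_add_self e m s he hm h1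
  rw [← h7]
  exact h4

end Pool.Agent.CN2.H70

end
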