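import Pool.Agent.Helper25_CN2.Stmts

/-!
Squad CN2: module D_RK (the rank of the definite lattice at a cusp is at most n - 1)
-/

noncomputable section

namespace Pool.Agent.CN2.H70

open Pool.Agent.H25Cong Pool.Agent.CON Pool.Agent.CN2

/-- Module D_RK. -/
theorem d_rk : D_RK := by
  rintro n L e f hL he hf hee hff hef ⟨c, hc⟩
  obtain ⟨a, ha⟩ := hL.lat
  have hfe : B f e = -1 := by rw [B_comm]; exact hef
  set v : Fin (n + 2) → L := Fin.cons ⟨e, he⟩ (Fin.cons ⟨f, hf⟩ fun i => ⟨(c i : V n), (c i).2.1⟩)
    with hv
  have hli : LinearIndependent ℤ v := by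
    rw [Fintype.linearIndependent_iff]
    intro g hg
    have h1 : (g 0 : ℝ) • e + ((g 1 : ℝ) • f + ∑ i : Fin n, (g i.succ.succ : ℝ) • (c i : V n)) =
        0 := by
      have h2 := congrArg (fun x : L => (x : V n)) hg
      simp only [hv, Fin.sum_univ_succ, Fin.cons_zero, Fin.cons_succ, Submodule.coe_add,
        Submodule.coe_zero, Submodule.coe_smul, Submodule.coe_sum] at h2
      rw [← h2]
      simp only [Int.cast_smul_eq_zsmul]
      rfl
    have hce : ∀ i, B (c i : V n) e = 0 := fun i => (c i).2.2.1
    have hcf : ∀ i, B (c i : V n) f = 0 := fun i => (c i).2.2.2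
    have hsum : ∀ w : V n, (∀ i, B (c i : V n) w = 0) → ∀ s : Finset (Fin n),
        B (∑ i ∈ s, (g i.succ.succ : ℝ) • (c i : V n)) w = 0 := by
      intro w hw s
      induction s using Finset.induction_on with
      | empty => simp
      | insert i s hi ih => rw [Finset.sum_insert hi, B_add_left, ih, B_smul_left, hw]; ring
    have h3 := congrArg (fun x => B x e) h1
    have h4 := congrArg (fun x => B x f) h1
    simp only [B_add_left, B_smul_left, hee, hfe, hef, hff, hsum e hce, hsum f hcf] at h3 h4
    have z : B (0 : V n) e = 0 := by simp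
    have z' : B (0 : V n) f = 0 := by simp
    rw [z] at h3
    rw [z'] at h4
    have g1 : g 1 = 0 := by
      have : (g 1 : ℝ) = 0 := by linarith
      exact_mod_cast this
    have g0 : g 0 = 0 := by
      have : (g 0 : ℝ) = 0 := by linarith
      exact_mod_cast this
    rw [g0, g1] at h1
    simp only [Int.cast_zero, zero_smul, zero_add] at h1
    have h5 : ∑ i : Fin n, g i.succ.succ • c i = 0 := by
      apply Subtype.ext
      rw [AddSubgroup.val_finsetSum]
      simp only [AddSubgroup.coe_zsmul]
      rw [AddSubgroup.coe_zero, ← h1]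
      refine Finset.sum_congr rfl fun i _ => ?_
      rw [Int.cast_smul_eq_zsmul]
    have h6 := Fintype.linearIndependent_iff.mp hc (fun i => g i.succ.succ) h5
    intro i
    refine Fin.cases g0 (fun i => ?_) i
    exact Fin.cases g1 (fun i => h6 i) i
  have haz : LinearIndependent ℤ a := by
    apply a.linearIndependent.restrict_scalars
    intro x y hxy
    simpa using hxy
  have hfin : Module.Finite ℤ L := by
    rw [ha]
    exact Module.Finite.span_of_finite ℤ (Set.finite_range a)
  have hrk : Module.finrank ℤ L = n + 1 := by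
    rw [ha, finrank_span_eq_card haz, Fintype.card_fin]
  have h7 := hli.fintype_card_le_finrank
  rw [hrk, Fintype.card_fin] at h7
  omega

end Pool.Agent.CN2.H70

end
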